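import Pool.Agent.Q44.JQ.StmC

/-!
# JQ-LBL, part one: additivity, residue classes, classes of integers
-/

set_option autoImplicit false
set_option linter.unusedVariables false

namespace Pool.Agent.Q24.JQ

open Finset Module Q44.JQ
open Q44.BN (jv jv_mul jv_mod jv_one jac_pm)
open Q44.TI (ch ch_zero padic_sq padic_sq2 ch_mul jac_mod)
open scoped Classical

/-- the modulus -/
def mT (T : Finset ℕ) : ℕ := 8 * ∏ p ∈ T, p

theorem cop_mT {T : Finset ℕ} (hT : ∀ p ∈ T, p.Prime) (h2 : 2 ∈ T) {n : ℕ} (hn : Cop T n) :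
    n.Coprime (mT T) := by
  unfold mT
  refine Nat.Coprime.mul_right ?_ (Nat.Coprime.prod_right fun p hp => ?_)
  · have : n.Coprime (2 ^ 3) := Nat.Coprime.pow_right 3
      ((Nat.Prime.coprime_iff_not_dvd Nat.prime_two).2 (hn 2 h2)).symm
    exact this
  · exact ((Nat.Prime.coprime_iff_not_dvd (hT p hp)).2 (hn p hp)).symm

theorem tv_dvd {T : Finset ℕ} (o : Option T) : 4 * (tv o : ℤ).natAbs ∣ mT T := by
  unfold mT
  cases o with
  | none =>
    simp only [tv, Option.elim]
    exact ⟨2 * ∏ p ∈ T, p, by norm_num; ring⟩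
  | some t =>
    simp only [tv, Option.elim, Int.natAbs_natCast]
    obtain ⟨k, hk⟩ := Finset.dvd_prod_of_mem (fun p : ℕ => p) t.2
    exact ⟨2 * k, by rw [hk]; ring⟩

theorem lbl_mul {T : Finset ℕ} (hT : ∀ p ∈ T, p.Prime) (h2 : 2 ∈ T) {n n' : ℕ} (hn : Cop T n)
    (hn' : Cop T n') : lbl T (n * n') = lbl T n + lbl T n' := by
  funext o
  exact jv_mul (tv_dvd o) (cop_mT hT h2 hn) (cop_mT hT h2 hn')

theorem lbl_mod {T : Finset ℕ} (hT : ∀ p ∈ T, p.Prime) (h2 : 2 ∈ T) {n : ℕ} (hn : Cop T n) :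
    lbl T (n % mT T) = lbl T n := by
  funext o
  exact jv_mod (tv_dvd o) (cop_mT hT h2 hn)

theorem cop_mul {T : Finset ℕ} (hT : ∀ p ∈ T, p.Prime) {n n' : ℕ} (hn : Cop T n) (hn' : Cop T n') :
    Cop T (n * n') := by
  intro p hp h
  rcases (hT p hp).dvd_mul.1 h with h | h
  · exact hn p hp h
  · exact hn' p hp h

theorem cop_ne {T : Finset ℕ} (h2 : 2 ∈ T) {n : ℕ} (hn : Cop T n) : n ≠ 0 := by
  rintro rfl
  exact hn 2 h2 (dvd_zero _)

theorem cop_odd {T : Finset ℕ} (h2 : 2 ∈ T) {n : ℕ} (hn : Cop T n) : Odd n := by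
  rw [← Nat.not_even_iff_odd]
  exact fun h => hn 2 h2 h.two_dvd

/-! ### Classes of integers -/

theorem ct_mul {T : Finset ℕ} (hT : ∀ p ∈ T, p.Prime) {z z' : ℤ} (hz : z ≠ 0) (hz' : z' ≠ 0) :
    (ct (z * z') : Option T → ZMod 2) = ct z + ct z' := by
  funext o
  cases o with
  | none =>
    simp only [ct, Option.elim, Pi.add_apply]
    rcases lt_or_gt_of_ne hz with h | h <;> rcases lt_or_gt_of_ne hz' with h' | h'
    · rw [if_neg (by nlinarith), if_pos h, if_pos h']
      decide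
    · rw [if_pos (by nlinarith), if_pos h, if_neg (by omega)]
      decide
    · rw [if_pos (by nlinarith), if_neg (by omega), if_pos h']
      decide
    · rw [if_neg (by nlinarith), if_neg (by omega), if_neg (by omega)]
      decide
  | some t =>
    simp only [ct, Option.elim, Pi.add_apply]
    haveI : Fact (t : ℕ).Prime := ⟨hT t t.2⟩
    rw [padicValInt.mul hz hz']
    push_cast
    rfl

theorem ct_one {T : Finset ℕ} : (ct (1 : ℤ) : Option T → ZMod 2) = 0 := by
  funext o
  cases o with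
  | none => simp [ct]
  | some t => simp [ct]

theorem ct_neg_one {T : Finset ℕ} : (ct (-1 : ℤ) : Option T → ZMod 2) = Pi.single none 1 := by
  funext o
  rw [ct_neg one_ne_zero, ct_one]
  by_cases h : o = none
  · subst h
    simp
  · rw [if_neg h, Pi.single_eq_of_ne h]
    simp

theorem ct_prime {T : Finset ℕ} (hT : ∀ p ∈ T, p.Prime) (t : T) :
    (ct ((t : ℕ) : ℤ) : Option T → ZMod 2) = Pi.single (some t) 1 := by
  funext o
  cases o with
  | none =>
    simp [ct]
  | some u =>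
    simp only [ct, Option.elim]
    by_cases h : t = u
    · subst h
      haveI : Fact (t : ℕ).Prime := ⟨hT t t.2⟩
      rw [Pi.single_eq_same]
      simp [padicValInt]
    · rw [Pi.single_eq_of_ne (by simpa using fun h' => h h'.symm)]
      have h1 : padicValInt u ((t : ℕ) : ℤ) = 0 := by
        unfold padicValInt
        rw [Int.natAbs_natCast]
        refine padicValNat.eq_zero_of_not_dvd fun h2 => h ?_
        exact Subtype.ext ((Nat.prime_dvd_prime_iff_eq (hT u u.2) (hT t t.2)).1 h2).symm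
      rw [h1]
      simp

theorem ct_tv {T : Finset ℕ} (hT : ∀ p ∈ T, p.Prime) (o : Option T) :
    (ct (tv o) : Option T → ZMod 2) = Pi.single o 1 := by
  cases o with
  | none => exact ct_neg_one
  | some t => exact ct_prime hT t

theorem tv_ne {T : Finset ℕ} (hT : ∀ p ∈ T, p.Prime) (o : Option T) : (tv o : ℤ) ≠ 0 := by
  cases o with
  | none => simp [tv]
  | some t =>
    simp only [tv, Option.elim]
    exact_mod_cast (hT t t.2).ne_zero

theorem Uo_ne {T : Finset ℕ} (hT : ∀ p ∈ T, p.Prime) (γ : Option T → ZMod 2) : Uo γ ≠ 0 := by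
  unfold Uo
  rw [Finset.prod_ne_zero_iff]
  intro o _
  split_ifs
  · exact one_ne_zero
  · exact tv_ne hT o

theorem ct_prod {T : Finset ℕ} (hT : ∀ p ∈ T, p.Prime) {ι : Type} (s : Finset ι) (f : ι → ℤ)
    (hf : ∀ i ∈ s, f i ≠ 0) :
    (ct (∏ i ∈ s, f i) : Option T → ZMod 2) = ∑ i ∈ s, ct (f i) := by
  induction s using Finset.induction_on with
  | empty => rw [prod_empty, sum_empty, ct_one]
  | insert a s ha ih =>
    rw [prod_insert ha, sum_insert ha, ct_mul hT (hf a (mem_insert_self _ _))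
      (Finset.prod_ne_zero_iff.2 fun i hi => hf i (mem_insert_of_mem hi)),
      ih fun i hi => hf i (mem_insert_of_mem hi)]

theorem ct_Uo {T : Finset ℕ} (hT : ∀ p ∈ T, p.Prime) (γ : Option T → ZMod 2) : ct (Uo γ) = γ := by
  unfold Uo
  rw [ct_prod hT]
  · funext o
    rw [Finset.sum_apply, Finset.sum_eq_single o]
    · split_ifs with h
      · rw [ct_one, h]
        rfl
      · rw [ct_tv hT, Pi.single_eq_same]
        have : ∀ a : ZMod 2, a ≠ 0 → 1 = a := by decide
        exact this _ h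
    · intro b _ hb
      split_ifs with h
      · rw [ct_one]
        rfl
      · rw [ct_tv hT, Pi.single_eq_of_ne (Ne.symm hb)]
    · intro h
      exact absurd (mem_univ _) h
  · intro i _
    split_ifs
    · exact one_ne_zero
    · exact tv_ne hT i

/-- the form of `Uo` -/
theorem Uo_eq {T : Finset ℕ} (γ : Option T → ZMod 2) :
    Uo γ = (if γ none = 0 then 1 else -1) * ∏ t : T, if γ (some t) = 0 then 1 else ((t : ℕ) : ℤ) := by
  unfold Uo
  rw [Fintype.prod_option]
  rfl

theorem Uo_natAbs {T : Finset ℕ} (γ : Option T → ZMod 2) :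
    (Uo γ).natAbs = ∏ t : T, if γ (some t) = 0 then 1 else (t : ℕ) := by
  rw [Uo_eq, Int.natAbs_mul]
  have h1 : (if γ none = 0 then (1 : ℤ) else -1).natAbs = 1 := by
    split_ifs <;> rfl
  rw [h1, one_mul]
  have h2 : (∏ t : T, if γ (some t) = 0 then 1 else ((t : ℕ) : ℤ)) =
      ((∏ t : T, if γ (some t) = 0 then 1 else (t : ℕ) : ℕ) : ℤ) := by
    push_cast
    exact prod_congr rfl fun t _ => by split_ifs <;> rfl
  rw [h2, Int.natAbs_natCast]

theorem Uo_supp {T : Finset ℕ} (hT : ∀ p ∈ T, p.Prime) (γ : Option T → ZMod 2) (p : ℕ) (hp : p.Prime)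
    (h : (p : ℤ) ∣ Uo γ) : p ∈ T := by
  have h1 : p ∣ (Uo γ).natAbs := by
    rwa [← Int.natCast_dvd]
  rw [Uo_natAbs] at h1
  obtain ⟨t, _, ht⟩ := (Prime.dvd_finset_prod_iff hp.prime _).1 h1
  split_ifs at ht with h2
  · exact absurd (Nat.dvd_one.1 ht) hp.one_lt.ne'
  · rw [(Nat.prime_dvd_prime_iff_eq hp (hT t t.2)).1 ht]
    exact t.2

theorem Uo_sqf {T : Finset ℕ} (hT : ∀ p ∈ T, p.Prime) (γ : Option T → ZMod 2) :
    Squarefree (Uo γ) := by
  unfold Uo
  refine Finset.squarefree_prod_of_pairwise_isCoprime ?_ ?_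
  · intro o _ o' _ hoo
    show IsRelPrime (if γ o = 0 then (1 : ℤ) else tv o) (if γ o' = 0 then (1 : ℤ) else tv o')
    refine IsCoprime.isRelPrime ?_
    split_ifs
    · exact isCoprime_one_left
    · exact isCoprime_one_left
    · exact isCoprime_one_right
    · cases o with
      | none => exact (isCoprime_one_left).neg_left
      | some t =>
        cases o' with
        | none => exact (isCoprime_one_right).neg_right
        | some t' =>
          show IsCoprime ((t : ℕ) : ℤ) ((t' : ℕ) : ℤ)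
          rw [Nat.isCoprime_iff_coprime]
          refine (Nat.coprime_primes (hT t t.2) (hT t' t'.2)).2 fun h => hoo ?_
          rw [Subtype.ext h]
  · intro o _
    split_ifs
    · exact squarefree_one
    · cases o with
      | none => exact (isUnit_one.neg).squarefree
      | some t =>
        show Squarefree ((t : ℕ) : ℤ)
        exact (Nat.prime_iff_prime_int.1 (hT t t.2)).squarefree

/-- a positive integer all of whose valuations are even is a square -/
theorem sq_of_ct {T : Finset ℕ} (hT : ∀ p ∈ T, p.Prime) {z : ℤ} (hz : z ≠ 0)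
    (hs : ∀ p : ℕ, p.Prime → (p : ℤ) ∣ z → p ∈ T) (h : (ct z : Option T → ZMod 2) = 0) :
    ∃ w : ℤ, w ≠ 0 ∧ z = w ^ 2 := by
  have h0 : 0 < z := by
    have := congrFun h none
    simp only [ct, Option.elim, Pi.zero_apply] at this
    by_contra hn
    rw [if_pos (by omega)] at this
    exact absurd this (by decide)
  obtain ⟨a, b, hab, ha⟩ := Nat.sq_mul_squarefree z.natAbs
  have hn0 : z.natAbs ≠ 0 := Int.natAbs_ne_zero.2 hz
  have hb0 : b ≠ 0 := by
    rintro rfl
    apply hn0
    rw [← hab]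
    ring
  have ha0 : a ≠ 0 := by
    rintro rfl
    apply hn0
    rw [← hab]
    ring
  have ha1 : a = 1 := by
    by_contra hne
    obtain ⟨p, hp, hpa⟩ := Nat.exists_prime_and_dvd hne
    haveI : Fact p.Prime := ⟨hp⟩
    have hpz : (p : ℤ) ∣ z := by
      rw [Int.natCast_dvd, ← hab]
      exact hpa.mul_left _
    have hpT := hs p hp hpz
    have h1 := congrFun h (some ⟨p, hpT⟩)
    simp only [ct, Option.elim, Pi.zero_apply, padicValInt] at h1
    rw [← hab, padicValNat.mul (pow_ne_zero 2 hb0) ha0, padicValNat.pow] at h1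
    have h2 : padicValNat p a = 1 := by
      have h3 := (Nat.squarefree_iff_factorization_le_one ha0).1 ha p
      rw [Nat.factorization_def a hp] at h3
      have h4 : padicValNat p a ≠ 0 := by
        rw [← dvd_iff_padicValNat_ne_zero ha0]
        exact hpa
      omega
    rw [h2] at h1
    push_cast at h1
    have h5 : (2 : ZMod 2) = 0 := by decide
    rw [h5, zero_mul, zero_add] at h1
    exact absurd h1 (by decide)
  refine ⟨b, by exact_mod_cast hb0, ?_⟩
  rw [ha1, mul_one] at hab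
  have : (z.natAbs : ℤ) = z := Int.natAbs_of_nonneg h0.le
  rw [← this, ← hab]
  push_cast
  rfl

theorem Uo_sq {T : Finset ℕ} (hT : ∀ p ∈ T, p.Prime) {z : ℤ} (hz : z ≠ 0)
    (hs : ∀ p : ℕ, p.Prime → (p : ℤ) ∣ z → p ∈ T) :
    ∃ w : ℤ, w ≠ 0 ∧ z * Uo (ct z : Option T → ZMod 2) = w ^ 2 := by
  refine sq_of_ct hT (mul_ne_zero hz (Uo_ne hT _)) ?_ ?_
  · intro p hp h
    rcases (Nat.prime_iff_prime_int.1 hp).dvd_or_dvd h with h | h
    · exact hs p hp h
    · exact Uo_supp hT _ p hp h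
  · rw [ct_mul hT hz (Uo_ne hT _), ct_Uo hT]
    funext o
    have : ∀ a : ZMod 2, a + a = 0 := by decide
    exact this _

/-! ### Symbols in the first argument -/

theorem jac_cop {z : ℤ} {n : ℕ} (h : ∀ p : ℕ, p.Prime → (p : ℤ) ∣ z → ¬ p ∣ n) :
    jacobiSym z n = 1 ∨ jacobiSym z n = -1 := by
  refine jacobiSym.eq_one_or_neg_one ?_
  by_contra hne
  obtain ⟨p, hp, hpd⟩ := Nat.exists_prime_and_dvd hne
  have h1 : (p : ℤ) ∣ z := (Int.natCast_dvd_natCast.2 hpd).trans (Int.gcd_dvd_left ..)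
  have h2 : (p : ℤ) ∣ n := (Int.natCast_dvd_natCast.2 hpd).trans (Int.gcd_dvd_right ..)
  exact h p hp h1 (Int.natCast_dvd_natCast.1 h2)

theorem jv_mul_left {z z' : ℤ} {n : ℕ} (h : ∀ p : ℕ, p.Prime → (p : ℤ) ∣ z → ¬ p ∣ n)
    (h' : ∀ p : ℕ, p.Prime → (p : ℤ) ∣ z' → ¬ p ∣ n) : jv (z * z') n = jv z n + jv z' n := by
  unfold jv
  rw [jacobiSym.mul_left]
  rcases jac_cop h with h | h <;> rcases jac_cop h' with h' | h' <;> rw [h, h']
  · simp
  · norm_num
  · norm_num
  · norm_num
    decide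

theorem pr_mul {T : Finset ℕ} (hT : ∀ p ∈ T, p.Prime) (φ : Option T → ZMod 2) {z z' : ℤ} (hz : z ≠ 0)
    (hz' : z' ≠ 0) : pr φ (z * z') = pr φ z + pr φ z' := by
  unfold pr
  rw [ct_mul hT hz hz', ← sum_add_distrib]
  exact sum_congr rfl fun o _ => by rw [Pi.add_apply, mul_add]

theorem pr_tv {T : Finset ℕ} (hT : ∀ p ∈ T, p.Prime) (φ : Option T → ZMod 2) (o : Option T) :
    pr φ (tv o) = φ o := by
  unfold pr
  rw [ct_tv hT, Finset.sum_eq_single o]
  · rw [Pi.single_eq_same, mul_one]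
  · intro b _ hb
    rw [Pi.single_eq_of_ne hb, mul_zero]
  · intro h
    exact absurd (mem_univ _) h

theorem jv_nat {T : Finset ℕ} (hT : ∀ p ∈ T, p.Prime) {n : ℕ} (hn : Cop T n) : ∀ a : ℕ, a ≠ 0 →
    (∀ p : ℕ, p.Prime → p ∣ a → p ∈ T) → jv (a : ℤ) n = pr (lbl T n) (a : ℤ) := by
  intro a
  induction a using Nat.recOnMul with
  | zero => intro h; exact absurd rfl h
  | one =>
    intro _ _
    have h1 : jv ((1 : ℕ) : ℤ) n = 0 := by
      unfold jv
      rw [Nat.cast_one, jacobiSym.one_left, if_pos rfl]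
    rw [h1]
    unfold pr
    rw [Nat.cast_one, ct_one]
    simp
  | prime p hp =>
    intro _ h
    have hpT := h p hp dvd_rfl
    exact (pr_tv hT (lbl T n) (some ⟨p, hpT⟩)).symm
  | mul a b iha ihb =>
    intro hab h
    have ha : a ≠ 0 := left_ne_zero_of_mul hab
    have hb : b ≠ 0 := right_ne_zero_of_mul hab
    rw [Nat.cast_mul, jv_mul_left, pr_mul hT _ (by exact_mod_cast ha) (by exact_mod_cast hb),
      iha ha fun p hp hd => h p hp (hd.mul_right _), ihb hb fun p hp hd => h p hp (hd.mul_left _)]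
    · intro p hp hd
      exact hn p (h p hp ((Int.natCast_dvd_natCast.1 hd).mul_right _))
    · intro p hp hd
      exact hn p (h p hp ((Int.natCast_dvd_natCast.1 hd).mul_left _))

theorem jv_pr {T : Finset ℕ} (hT : ∀ p ∈ T, p.Prime) {z : ℤ} {n : ℕ} (hz : z ≠ 0)
    (hs : ∀ p : ℕ, p.Prime → (p : ℤ) ∣ z → p ∈ T) (hn : Cop T n) : jv z n = pr (lbl T n) z := by
  have h1 : ∀ p : ℕ, p.Prime → p ∣ z.natAbs → p ∈ T := fun p hp hd => hs p hp (Int.natCast_dvd.2 hd)
  have h2 := jv_nat hT hn z.natAbs (Int.natAbs_ne_zero.2 hz) h1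
  rcases Int.natAbs_eq z with h | h
  · rw [← h] at h2
    exact h2
  · have h3 : z = (-1) * (z.natAbs : ℤ) := by
      rw [neg_one_mul]
      exact h
    rw [h3, jv_mul_left, pr_mul hT _ (by norm_num) (by exact_mod_cast Int.natAbs_ne_zero.2 hz), h2]
    · congr 1
      exact (pr_tv hT (lbl T n) none).symm
    · intro p hp hd
      have : p ∣ 1 := by
        have := Int.natCast_dvd.1 hd
        simpa using this
      exact absurd (Nat.dvd_one.1 this) hp.one_lt.ne'
    · intro p hp hd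
      exact hn p (h1 p hp (Int.natCast_dvd_natCast.1 hd))

end Pool.Agent.Q24.JQ
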