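import Pool.Agent.Q24.JQ.LBLa

/-!
# JQ-LBL, part two: local squares and existence of primes
-/

set_option autoImplicit false
set_option linter.unusedVariables false

namespace Pool.Agent.Q24.JQ

open Finset Module Q44.JQ
open Q44.BN (jv jv_mul jv_mod jv_one jac_pm jv_prime)
open Q44.TI (ch ch_zero padic_sq padic_sq2 ch_mul jac_mod)
open scoped Classical

theorem ch_add_iff {a b : ZMod 2} : a = b ↔ (a = 0 ↔ b = 0) := by
  revert a b
  decide

theorem jv_zero {z : ℤ} {n : ℕ} : jv z n = 0 ↔ jacobiSym z n = 1 := by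
  unfold jv
  split_ifs with h
  · exact ⟨fun _ => h, fun _ => rfl⟩
  · exact ⟨fun h' => absurd h' (by decide), fun h' => absurd h' h⟩

/-- the sign -/
theorem jv_m1 {n : ℕ} (hn : Odd n) : jv (-1) n = if n % 4 = 1 then 0 else 1 := by
  unfold jv
  rw [jacobiSym.at_neg_one hn]
  by_cases h : n % 4 = 1
  · rw [if_pos h, if_pos (ZMod.χ₄_nat_one_mod_four h)]
  · have h3 : n % 4 = 3 := by
      rcases hn with ⟨k, hk⟩
      omega
    rw [if_neg h, ZMod.χ₄_nat_three_mod_four h3, if_neg (by norm_num)]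

/-- the symbol of two -/
theorem jv_two {n : ℕ} (hn : Odd n) : jv 2 n = if n % 8 = 1 ∨ n % 8 = 7 then 0 else 1 := by
  unfold jv
  have h1 : n % 2 = 1 := Nat.odd_iff.1 hn
  have h2 : jacobiSym 2 n = if n % 8 = 1 ∨ n % 8 = 7 then 1 else -1 := by
    rw [jacobiSym.at_two hn, ZMod.χ₈_nat_eq_if_mod_eight, if_neg (by omega)]
  rw [h2]
  by_cases h : n % 8 = 1 ∨ n % 8 = 7
  · rw [if_pos h, if_pos h, if_pos rfl]
  · rw [if_neg h, if_neg h, if_neg (by norm_num)]

/-- the class of a number modulo a prime and the symbol -/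
theorem ch_jac {p : ℕ} (hp : p.Prime) {n : ℕ} (h : ¬ p ∣ n) :
    ch ((n : ℕ) : ZMod p) = if jacobiSym (n : ℤ) p = 1 then 0 else 1 := by
  haveI : Fact p.Prime := ⟨hp⟩
  have h0 : (((n : ℕ) : ℤ) : ZMod p) ≠ 0 := by
    rw [Int.cast_natCast, Ne, ZMod.natCast_eq_zero_iff]
    exact h
  rw [← jacobiSym.legendreSym.to_jacobiSym]
  unfold ch
  rw [← Int.cast_natCast]
  by_cases h1 : IsSquare (((n : ℕ) : ℤ) : ZMod p)
  · rw [if_pos h1, if_pos ((legendreSym.eq_one_iff _ h0).2 h1)]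
  · rw [if_neg h1, if_neg fun h' => h1 ((legendreSym.eq_one_iff _ h0).1 h')]

/-- reciprocity -/
theorem recip {p : ℕ} (hp : p.Prime) (h2 : p ≠ 2) {n : ℕ} (hn : Odd n) (h : ¬ p ∣ n) :
    ch ((n : ℕ) : ZMod p) = jv (p : ℤ) n + (if p % 4 = 1 then 0 else 1) * jv (-1) n := by
  have hpo := hp.odd_of_ne_two h2
  rw [ch_jac hp h, jv_m1 hn]
  have hc : jacobiSym (p : ℤ) n = 1 ∨ jacobiSym (p : ℤ) n = -1 := by
    refine jac_cop fun q hq hd => ?_
    have := (Nat.prime_dvd_prime_iff_eq hq hp).1 (Int.natCast_dvd_natCast.1 hd)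
    rw [this]
    exact h
  by_cases h4 : p % 4 = 1
  · rw [if_pos h4, zero_mul, add_zero, ← jacobiSym.quadratic_reciprocity_one_mod_four h4 hn]
    rfl
  · by_cases h5 : n % 4 = 1
    · rw [if_pos h5, mul_zero, add_zero, jacobiSym.quadratic_reciprocity_one_mod_four h5 hpo]
      rfl
    · have h6 : p % 4 = 3 := by
        rcases hpo with ⟨k, hk⟩
        omega
      have h7 : n % 4 = 3 := by
        rcases hn with ⟨k, hk⟩
        omega
      rw [if_neg h4, if_neg h5, jacobiSym.quadratic_reciprocity_three_mod_four h7 h6]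
      unfold jv
      rcases hc with hc | hc <;> rw [hc]
      · norm_num
      · norm_num
        decide

/-- the class of an integer with label `φ` at an odd prime of `T` -/
theorem rc_lbl {T : Finset ℕ} (hT : ∀ p ∈ T, p.Prime) (hT2 : 2 ∈ T) {n : ℕ} (hn : Cop T n) (p : T)
    (h2 : (p : ℕ) ≠ 2) : ch ((n : ℕ) : ZMod p) = rc p (lbl T n) := by
  rw [recip (hT p p.2) h2 (cop_odd hT2 hn) (hn p p.2)]
  rfl

/-- label zero: a square at all places of `T` -/
theorem sq_of_lbl {T : Finset ℕ} (hT : ∀ p ∈ T, p.Prime) (hT2 : 2 ∈ T) {n : ℕ} (hn : Cop T n)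
    (h : lbl T n = 0) (p : ℕ) [Fact p.Prime] (hp : p ∈ T) : IsSquare ((n : ℕ) : ℚ_[p]) := by
  have hno := cop_odd hT2 hn
  by_cases h2 : p = 2
  · subst h2
    have h3 := congrFun h none
    have h4 := congrFun h (some ⟨2, hT2⟩)
    have h3' : jv (-1) n = 0 := h3
    have h4' : jv 2 n = 0 := h4
    rw [jv_m1 hno] at h3'
    rw [jv_two hno] at h4'
    have h5 : n % 4 = 1 := by
      by_contra h5
      rw [if_neg h5] at h3'
      exact one_ne_zero h3'
    have h6 : n % 8 = 1 ∨ n % 8 = 7 := by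
      by_contra h6
      rw [if_neg h6] at h4'
      exact one_ne_zero h4'
    have h7 := padic_sq2 (n := (n : ℤ)) (by omega)
    rwa [Int.cast_natCast] at h7
  · have h3 := rc_lbl hT hT2 hn ⟨p, hp⟩ h2
    rw [h] at h3
    have h4 : ch ((n : ℕ) : ZMod p) = 0 := by
      rw [h3]
      unfold rc
      simp
    rw [ch_zero] at h4
    have h7 := padic_sq (p := p) h2 (n := (n : ℤ)) (by
      rw [Int.natCast_dvd_natCast]
      exact hn p hp) (by rwa [Int.cast_natCast])
    rwa [Int.cast_natCast] at h7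

theorem sq_of_lbl_eq {T : Finset ℕ} (hT : ∀ p ∈ T, p.Prime) (hT2 : 2 ∈ T) {n n' : ℕ} (hn : Cop T n)
    (hn' : Cop T n') (h : lbl T n = lbl T n') (p : ℕ) [Fact p.Prime] (hp : p ∈ T) :
    IsSquare ((n : ℚ_[p]) * (n' : ℚ_[p])) := by
  have h1 : lbl T (n * n') = 0 := by
    rw [lbl_mul hT hT2 hn hn', h]
    funext o
    have : ∀ a : ZMod 2, a + a = 0 := by decide
    exact this _
  have h2 := sq_of_lbl hT hT2 (cop_mul hT hn hn') h1 p hp
  rwa [Nat.cast_mul] at h2

/-- a residue class with given symbols modulo eight -/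
theorem ex8 (a b : ZMod 2) : ∃ r : ℕ, Odd r ∧ ∀ n : ℕ, n % 8 = r % 8 → Odd n ∧ jv (-1) n = a ∧
    jv 2 n = b := by
  have key : ∀ r : ℕ, Odd r → (if r % 4 = 1 then (0 : ZMod 2) else 1) = a →
      (if r % 8 = 1 ∨ r % 8 = 7 then (0 : ZMod 2) else 1) = b →
      ∃ r : ℕ, Odd r ∧ ∀ n : ℕ, n % 8 = r % 8 → Odd n ∧ jv (-1) n = a ∧ jv 2 n = b := by
    intro r hr h1 h2
    refine ⟨r, hr, fun n hn => ?_⟩
    have ho : Odd n := by
      rw [Nat.odd_iff] at hr ⊢
      omega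
    refine ⟨ho, ?_, ?_⟩
    · rw [jv_m1 ho, ← h1]
      have : n % 4 = r % 4 := by omega
      rw [this]
    · rw [jv_two ho, ← h2, hn]
  have h01 : ∀ a : ZMod 2, a = 0 ∨ a = 1 := by decide
  rcases h01 a with rfl | rfl <;> rcases h01 b with rfl | rfl
  · exact key 1 (by decide) (by norm_num) (by norm_num)
  · exact key 5 (by decide) (by norm_num) (by norm_num)
  · exact key 7 (by decide) (by norm_num) (by norm_num)
  · exact key 3 (by decide) (by norm_num) (by norm_num)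

/-- a residue with a given class modulo an odd prime -/
theorem exq {p : ℕ} (hp : p.Prime) (h2 : p ≠ 2) (a : ZMod 2) :
    ∃ r : ℕ, ¬ p ∣ r ∧ ch ((r : ℕ) : ZMod p) = a := by
  haveI : Fact p.Prime := ⟨hp⟩
  have h01 : ∀ a : ZMod 2, a = 0 ∨ a = 1 := by decide
  rcases h01 a with rfl | rfl
  · refine ⟨1, fun h => hp.one_lt.ne' (Nat.dvd_one.1 h), ?_⟩
    rw [ch_zero]
    exact ⟨1, by simp⟩
  · obtain ⟨x, hx⟩ := FiniteField.exists_nonsquare (F := ZMod p) (by rwa [ZMod.ringChar_zmod_n])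
    refine ⟨x.val, fun h => hx ?_, ?_⟩
    · have h3 : x = 0 := by
        rw [← ZMod.natCast_zmod_val x, ZMod.natCast_eq_zero_iff]
        exact h
      rw [h3]
      exact IsSquare.zero
    · unfold ch
      rw [ZMod.natCast_zmod_val, if_neg hx]

/-- every label is the label of a number prime to `T` -/
theorem exlbl {T : Finset ℕ} (hT : ∀ p ∈ T, p.Prime) (hT2 : 2 ∈ T) (φ : Option T → ZMod 2) :
    ∃ n : ℕ, Cop T n ∧ lbl T n = φ := by
  obtain ⟨r2, hr2, h8⟩ := ex8 (φ none) (φ (some ⟨2, hT2⟩))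
  have hex : ∀ p : ℕ, ∃ r : ℕ, p ∈ T → p ≠ 2 → ¬ p ∣ r ∧ ∀ h : p ∈ T, ch ((r : ℕ) : ZMod p) =
      rc (⟨p, h⟩ : T) φ := by
    intro p
    by_cases h : p ∈ T
    · by_cases h2 : p = 2
      · exact ⟨0, fun _ h' => absurd h2 h'⟩
      · obtain ⟨r, hr, hr'⟩ := exq (hT p h) h2 (rc (⟨p, h⟩ : T) φ)
        exact ⟨r, fun _ _ => ⟨hr, fun _ => hr'⟩⟩
    · exact ⟨0, fun h' => absurd h' h⟩
  choose r hr using hex
  obtain ⟨n, hn⟩ := Nat.chineseRemainderOfFinset (fun p => if p = 2 then r2 else r p)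
    (fun p : ℕ => if p = 2 then 8 else p) T (by
      intro p hp
      split_ifs
      · norm_num
      · exact (hT p hp).ne_zero) (by
      intro p hp q hq hpq
      show Nat.Coprime (if p = 2 then 8 else p) (if q = 2 then 8 else q)
      have h1 : p.Coprime q := (Nat.coprime_primes (hT p hp) (hT q hq)).2 hpq
      split_ifs with h2 h3 h3
      · exact absurd (h2.trans h3.symm) hpq
      · subst h2
        exact Nat.Coprime.pow_left 3 h1
      · subst h3
        exact Nat.Coprime.pow_right 3 h1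
      · exact h1)
  have hn8 : n % 8 = r2 % 8 := by
    have h0 := hn 2 hT2
    simp only [if_true] at h0
    exact h0
  obtain ⟨ho, hm1, hm2⟩ := h8 n hn8
  have hnp : ∀ p ∈ T, p ≠ 2 → ((n : ℕ) : ZMod p) = ((r p : ℕ) : ZMod p) := by
    intro p hp h2
    have := hn p hp
    simp only [h2, if_false] at this
    exact (ZMod.natCast_eq_natCast_iff _ _ _).2 this
  have hcop : Cop T n := by
    intro p hp hd
    by_cases h2 : p = 2
    · subst h2
      rw [Nat.odd_iff] at ho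
      omega
    · have h3 := hnp p hp h2
      rw [(ZMod.natCast_eq_zero_iff n p).2 hd] at h3
      exact (hr p hp h2).1 ((ZMod.natCast_eq_zero_iff _ _).1 h3.symm)
  refine ⟨n, hcop, funext fun o => ?_⟩
  cases o with
  | none => exact hm1
  | some t =>
    by_cases h2 : (t : ℕ) = 2
    · have h3 : t = ⟨2, hT2⟩ := Subtype.ext h2
      rw [h3]
      exact hm2
    · have h3 := recip (hT t t.2) h2 ho (hcop t t.2)
      rw [hnp t t.2 h2, (hr t t.2 h2).2 t.2, hm1] at h3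
      have h4 : rc t φ = φ (some t) + (if (t : ℕ) % 4 = 1 then 0 else 1) * φ none := rfl
      rw [h4] at h3
      exact (add_right_cancel h3).symm

/-- primes with a given label -/
theorem explbl {T : Finset ℕ} (hT : ∀ p ∈ T, p.Prime) (hT2 : 2 ∈ T) (φ : Option T → ZMod 2) (B : ℕ) :
    ∃ p : ℕ, p.Prime ∧ B < p ∧ p ∉ T ∧ lbl T p = φ := by
  obtain ⟨n, hn, hφ⟩ := exlbl hT hT2 φ
  have hc := cop_mT hT hT2 hn
  have hm0 : mT T ≠ 0 := by
    unfold mT
    exact mul_ne_zero (by norm_num) (Finset.prod_ne_zero_iff.2 fun p hp => (hT p hp).ne_zero)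
  haveI : NeZero (mT T) := ⟨hm0⟩
  obtain ⟨p, hpB, hp, hpn⟩ := Nat.forall_exists_prime_gt_and_eq_mod (q := mT T) (a := (n : ZMod (mT T)))
    ((ZMod.isUnit_iff_coprime n (mT T)).2 hc) (max B (∑ q ∈ T, q))
  have hpT : p ∉ T := by
    intro h
    have h1 : p ≤ ∑ q ∈ T, q := Finset.single_le_sum (fun q _ => Nat.zero_le q) h
    have h2 := (le_max_right B (∑ q ∈ T, q)).trans_lt hpB
    omega
  have hpc : Cop T p := by
    intro q hq hd
    rw [(Nat.prime_dvd_prime_iff_eq (hT q hq) hp).1 hd] at hq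
    exact hpT hq
  refine ⟨p, hp, (le_max_left _ _).trans_lt hpB, hpT, ?_⟩
  rw [← hφ, ← lbl_mod hT hT2 hn, ← lbl_mod hT hT2 hpc]
  congr 1
  exact (ZMod.natCast_eq_natCast_iff' _ _ _).1 hpn

theorem t_LBL : S_LBL := by
  intro T hT hT2
  refine ⟨fun n n' hn hn' => lbl_mul hT hT2 hn hn', fun z n hz hs hn => jv_pr hT hz hs hn,
    fun n n' hn hn' h p _ hp => sq_of_lbl_eq hT hT2 hn hn' h p hp, fun φ B => explbl hT hT2 φ B,
    fun n n' hn h => ?_, fun γ => ⟨Uo_sqf hT γ, fun p hp h => Uo_supp hT γ p hp h, ct_Uo hT γ⟩,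
    fun z hz hs => Uo_sq hT hz hs, fun z z' hz hz' => ct_mul hT hz hz'⟩
  have hn' : Cop T n' := by
    intro p hp hd
    refine hn p hp ?_
    have h1 : p ∣ 8 * ∏ p ∈ T, p := (Finset.dvd_prod_of_mem (fun p : ℕ => p) hp).mul_left 8
    rw [← Nat.dvd_mod_iff h1] at hd ⊢
    rw [h]
    exact hd
  rw [← lbl_mod hT hT2 hn, ← lbl_mod hT hT2 hn']
  unfold mT
  rw [h]

end Pool.Agent.Q24.JQ
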