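import Pool.Agent.Q24.JQ.LBL

/-!
# JQ-LOCI: the local condition does not depend on the choice of the integers
-/

set_option autoImplicit false
set_option linter.unusedVariables false

namespace Pool.Agent.Q24.JQ

open Finset Module Q44.JQ
open Pool.Agent.Y723.PT (LG tw locJ_iff)
open Pool.Agent.TH344.JG (LocJ)
open scoped Classical

/-- change of the integers -/
theorem locJ_change {K : Type} [Field K] [CharZero K] {k : ℕ} {a d d' : Fin k → ℤ} {n n' : ℕ}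
    (hn : n ≠ 0) (hn' : n' ≠ 0) (hs : IsSquare ((n : K) * (n' : K))) (hd : ∀ i, d i ≠ 0)
    (hdd : ∀ i, IsSquare ((((d i : ℤ) : K)) * ((d' i : ℤ) : K)))
    (h : LocJ K (tw (n : ℤ) a) d) : LocJ K (tw (n' : ℤ) a) d' := by
  rw [locJ_iff] at h ⊢
  have hnK : (n : K) ≠ 0 := by exact_mod_cast hn
  have hnK' : (n' : K) ≠ 0 := by exact_mod_cast hn'
  obtain ⟨s, hs⟩ := hs
  have hs0 : s ≠ 0 := by
    rintro rfl
    rw [mul_zero] at hs
    exact mul_ne_zero hnK hnK' hs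
  have h1 : LG (fun i => ((tw (n' : ℤ) a i : ℤ) : K)) (fun i => ((d i : ℤ) : K)) := by
    refine LG.scale (ρ := s / n') (div_ne_zero hs0 hnK') ?_
    have e1 : (fun i => (s / (n' : K)) ^ 2 * ((tw (n' : ℤ) a i : ℤ) : K)) =
        fun i => ((tw (n : ℤ) a i : ℤ) : K) := by
      funext i
      unfold tw
      push_cast
      have : s ^ 2 = (n : K) * n' := by rw [hs, sq]
      rw [div_pow, this]
      field_simp
    rw [e1]
    exact h
  exact h1.congr (fun i => by exact_mod_cast hd i) hdd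

theorem dz_ne {T : Finset ℕ} (hT : ∀ p ∈ T, p.Prime) (hT2 : 2 ∈ T) (c : Cr T) (δ : Option T → c.V)
    {z : Fin (2 * c.g + 1) → ℕ} (hz : ∀ i, Cop T (z i)) (i : Fin (2 * c.g + 1)) :
    c.dz δ z i ≠ 0 := by
  unfold Cr.dz
  exact mul_ne_zero (Uo_ne hT _) (by exact_mod_cast cop_ne hT2 (hz i))

theorem dz_sq {T : Finset ℕ} (c : Cr T) (δ : Option T → c.V) {K : Type} [Field K] [CharZero K]
    {z z' : Fin (2 * c.g + 1) → ℕ} (i : Fin (2 * c.g + 1)) (h : IsSquare ((z i : K) * (z' i : K))) :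
    IsSquare ((((c.dz δ z i : ℤ) : K)) * ((c.dz δ z' i : ℤ) : K)) := by
  unfold Cr.dz
  have e : (((Uo (fun o => (δ o).1 i) * (z i : ℤ) : ℤ) : K)) *
      (((Uo (fun o => (δ o).1 i) * (z' i : ℤ) : ℤ) : K)) =
      (((Uo (fun o => (δ o).1 i) : ℤ) : K) * ((Uo (fun o => (δ o).1 i) : ℤ) : K)) *
        ((z i : K) * (z' i : K)) := by
    push_cast
    ring
  rw [e]
  exact IsSquare.mul ⟨_, rfl⟩ h

theorem sq_real (n n' : ℕ) : IsSquare ((n : ℝ) * (n' : ℝ)) :=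
  ⟨Real.sqrt ((n : ℝ) * n'), (Real.mul_self_sqrt (by positivity)).symm⟩

theorem t_LOCI : S_LOCI := by
  intro T hT hT2 c ρ y n z hn hρ hz
  refine ⟨⟨?_, fun h => ⟨n, z, hn, hρ, hz, h⟩⟩, fun p _ hp => ⟨?_, fun h => ⟨n, z, hn, hρ, hz, h⟩⟩⟩
  · rintro ⟨n', z', hn', hρ', hz', h⟩
    exact locJ_change (cop_ne hT2 hn') (cop_ne hT2 hn) (sq_real _ _)
      (fun i => dz_ne hT hT2 c y.1 (fun i => (hz' i).1) i) (fun i => dz_sq c y.1 i (sq_real _ _)) h
  · rintro ⟨n', z', hn', hρ', hz', h⟩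
    exact locJ_change (cop_ne hT2 hn') (cop_ne hT2 hn)
      (sq_of_lbl_eq hT hT2 hn' hn (hρ'.trans hρ.symm) p hp)
      (fun i => dz_ne hT hT2 c y.1 (fun i => (hz' i).1) i)
      (fun i => dz_sq c y.1 i (sq_of_lbl_eq hT hT2 (hz' i).1 (hz i).1
        ((hz' i).2.trans (hz i).2.symm) p hp)) h

end Pool.Agent.Q24.JQ
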