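import Pool.Agent.Q44.JQ.StmC

set_option autoImplicit false
set_option linter.unusedVariables false

namespace Pool.Agent.Q24.JQ

open Finset Module Q44.JQ
open scoped Classical

theorem two_mul_z (a : ZMod 2) : a + a = 0 := by revert a; decide

theorem omV_apply {n : ℕ} (x y : VV n) : omV n x y = ∑ i, x.1 i * y.1 i := rfl

/-- the alternating property -/
theorem omV_alt {n : ℕ} (x : VV n) : omV n x x = 0 := by
  rw [omV_apply]
  have h : ∀ a : ZMod 2, a * a = a := by decide
  rw [sum_congr rfl fun i _ => h _]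
  exact x.2

/-- the vector `e_i + e_j` -/
theorem pair_mem {n : ℕ} (i j : Fin n) :
    (Pi.single i 1 + Pi.single j 1 : Fin n → ZMod 2) ∈ VV n := by
  rw [mem_VV]
  simp only [Pi.add_apply, sum_add_distrib, Pi.single_apply, Finset.sum_ite_eq', mem_univ, if_true]
  decide

theorem omV_pair {n : ℕ} (x : VV n) (i j : Fin n) :
    omV n x ⟨_, pair_mem i j⟩ = x.1 i + x.1 j := by
  rw [omV_apply]
  simp only [Pi.add_apply, mul_add, sum_add_distrib, Pi.single_apply, mul_ite, mul_one, mul_zero,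
    Finset.sum_ite_eq', mem_univ, if_true]

/-- nondegenerate for odd length -/
theorem omV_nd {g : ℕ} (x : VV (2 * g + 1)) (h : ∀ y, omV _ x y = 0) : x = 0 := by
  have h1 : ∀ i j, x.1 i = x.1 j := by
    intro i j
    have := h ⟨_, pair_mem i j⟩
    rw [omV_pair] at this
    have h2 : ∀ a b : ZMod 2, a + b = 0 → a = b := by decide
    exact h2 _ _ this
  have h2 : ∑ i, x.1 i = 0 := x.2
  rw [sum_congr rfl fun i _ => h1 i 0, sum_const, card_univ, Fintype.card_fin, nsmul_eq_mul] at h2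
  have h3 : ((2 * g + 1 : ℕ) : ZMod 2) = 1 := by
    push_cast
    have : (2 : ZMod 2) = 0 := by decide
    rw [this, zero_mul, zero_add]
  rw [h3, one_mul] at h2
  refine Subtype.ext (funext fun i => ?_)
  rw [h1 i 0, h2]
  rfl

/-- the sum, a linear map -/
noncomputable def sm (n : ℕ) : (Fin n → ZMod 2) →ₗ[ZMod 2] ZMod 2 where
  toFun x := ∑ i, x i
  map_add' x y := by simp only [Pi.add_apply, sum_add_distrib]
  map_smul' a x := by simp only [Pi.smul_apply, RingHom.id_apply, smul_sum]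

theorem fr_VV (g : ℕ) : finrank (ZMod 2) (VV (2 * g + 1)) = 2 * g := by
  have h1 : VV (2 * g + 1) = LinearMap.ker (sm (2 * g + 1)) := by
    ext x
    rw [LinearMap.mem_ker]
    exact mem_VV
  have h2 := (sm (2 * g + 1)).finrank_range_add_finrank_ker
  have h3 : LinearMap.range (sm (2 * g + 1)) = ⊤ := by
    rw [LinearMap.range_eq_top]
    intro a
    refine ⟨Pi.single 0 a, ?_⟩
    show ∑ i, (Pi.single 0 a : Fin (2 * g + 1) → ZMod 2) i = a
    simp only [Pi.single_apply, Finset.sum_ite_eq', mem_univ, if_true]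
  rw [h3, finrank_top, finrank_self, finrank_fin_fun] at h2
  rw [h1]
  omega

theorem card_VV (g : ℕ) : Nat.card (VV (2 * g + 1)) = 2 ^ (2 * g) := by
  rw [Module.natCard_eq_pow_finrank (K := ZMod 2), fr_VV, Nat.card_zmod]

theorem adj {T : Finset ℕ} (c : Cr T) (φ : Option T → ZMod 2) (x y : c.V) :
    omV _ (c.TT φ x) y = omV _ x (c.TT φ y) + φ none * omV _ x y := by
  rw [omV_apply, omV_apply, omV_apply]
  have e1 : ∀ (x : c.V) i, (c.TT φ x).1 i = c.tf φ x.1 i := fun _ _ => rfl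
  simp only [e1]
  unfold Cr.tf
  have h2 : ∀ i, (∑ j ∈ univ.erase i, pr φ (c.a i - c.a j) * (x.1 i + x.1 j) + φ none * x.1 i) * y.1 i =
      ∑ j ∈ univ.erase i, pr φ (c.a i - c.a j) * (x.1 i + x.1 j) * y.1 i + φ none * (x.1 i * y.1 i) := by
    intro i
    rw [add_mul, sum_mul]
    ring
  have h3 : ∀ i, x.1 i * (∑ j ∈ univ.erase i, pr φ (c.a i - c.a j) * (y.1 i + y.1 j) + φ none * y.1 i) =
      ∑ j ∈ univ.erase i, x.1 i * (pr φ (c.a i - c.a j) * (y.1 i + y.1 j)) + φ none * (x.1 i * y.1 i) := by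
    intro i
    rw [mul_add, mul_sum]
    ring
  rw [sum_congr rfl fun i _ => h2 i, sum_congr rfl fun i _ => h3 i, sum_add_distrib, sum_add_distrib,
    ← mul_sum, sum_offdiag, sum_offdiag]
  have h4 : ∀ i, ∑ j ∈ univ.filter (fun j => i < j), (pr φ (c.a i - c.a j) * (x.1 i + x.1 j) * y.1 i +
      pr φ (c.a j - c.a i) * (x.1 j + x.1 i) * y.1 j) =
      ∑ j ∈ univ.filter (fun j => i < j), (x.1 i * (pr φ (c.a i - c.a j) * (y.1 i + y.1 j)) +
      x.1 j * (pr φ (c.a j - c.a i) * (y.1 j + y.1 i))) + φ none *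
      ∑ j ∈ univ.filter (fun j => i < j), (x.1 i * y.1 j + x.1 j * y.1 i) := by
    intro i
    rw [mul_sum, ← sum_add_distrib]
    refine sum_congr rfl fun j hj => ?_
    have hij : i ≠ j := (mem_filter.1 hj).2.ne
    have h5 : pr φ (c.a j - c.a i) = pr φ (c.a i - c.a j) + φ none := by
      rw [← pr_neg φ (sub_ne_zero.2 fun h => hij (c.inj h))]
      congr 1
      ring
    rw [h5]
    have h6 : ∀ u v x y z w : ZMod 2, u * (x + y) * z + (u + v) * (y + x) * w =
      x * (u * (z + w)) + y * ((u + v) * (w + z)) + v * (x * w + y * z) := by decide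
    exact h6 _ _ _ _ _ _
  rw [sum_congr rfl fun i _ => h4 i, sum_add_distrib, ← mul_sum]
  have h7 : ∑ i, ∑ j ∈ univ.filter (fun j => i < j), (x.1 i * y.1 j + x.1 j * y.1 i) =
      ∑ i, x.1 i * y.1 i := by
    rw [← sum_offdiag (fun i j => x.1 i * y.1 j)]
    have h8 : ∀ i, ∑ j ∈ univ.erase i, x.1 i * y.1 j = x.1 i * y.1 i := by
      intro i
      rw [← mul_sum]
      have h9 := Finset.add_sum_erase univ (fun j => y.1 j) (mem_univ i)
      have h10 : ∑ j, y.1 j = 0 := y.2
      rw [h10] at h9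
      have h11 : ∀ a b : ZMod 2, a + b = 0 → b = a := by decide
      rw [h11 _ _ h9]
    exact sum_congr rfl fun i _ => h8 i
  rw [h7]

theorem t_OMV : S_OMV := by
  intro T c 𝓛
  refine ⟨⟨fun x => omV_alt x, fun φ x y => adj c φ x y⟩, fun x h => omV_nd x h, card_VV c.g, fr_VV c.g, ?_⟩
  have := fr_VV c.g
  refine Module.nontrivial_of_finrank_pos (R := ZMod 2) ?_
  rw [this]
  have := c.hg
  omega

end Pool.Agent.Q24.JQ
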