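import Pool.Agent.Q44.JQ.StmC

/-!
# JQ-QLOC: the quadratic form vanishes on the local images
-/

set_option autoImplicit false
set_option linter.unusedVariables false

namespace Pool.Agent.Q24.JQ

open Finset Module Q44.JQ
open Pool.Agent.Y723.PT (CF CF_empty CF_insert CF_mul dc dc_ne LG exists_iso wit Ck Ck_sq hs_isSquare
  tw tw_inj locJ_iff hs_sq_right)
open Pool.Agent.Y676.HS (hs BL hs_comm hs_mul hs_mul' hs_sq bl_real bl_padic)
open Pool.Agent.W313.BMX (Splits)
open Pool.Agent.TH344.JG (LocJ)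
open scoped Classical

section

variable {K : Type} [Field K] {n : ℕ}

/-- the sign -/
def sgz (a : ZMod 2) : ℤ := if a = 0 then 1 else -1

theorem sgz_add (a b : ZMod 2) : sgz (a + b) = sgz a * sgz b := by
  revert a b
  decide

theorem sgz_one {a : ZMod 2} : sgz a = 1 ↔ a = 0 := by
  revert a
  decide

theorem sgz_sum {ι : Type} (s : Finset ι) (f : ι → ZMod 2) :
    sgz (∑ i ∈ s, f i) = ∏ i ∈ s, sgz (f i) := by
  induction s using Finset.induction_on with
  | empty => rfl
  | insert a s ha ih => rw [sum_insert ha, prod_insert ha, sgz_add, ih]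

theorem hs_hv (u v : K) : hs u v = sgz (hv u v) := by
  unfold hs hv sgz
  split_ifs with h1 h2 h2
  · rfl
  · exact absurd rfl h2
  · exact absurd h2 (by decide)
  · rfl

/-- the sum over the pairs -/
noncomputable def prs' (s : Finset (Fin n)) (b : Fin n → K) : ZMod 2 :=
  ∑ i ∈ s, ∑ j ∈ s.filter (fun j => i < j), hv (b i) (b j)

theorem hs_prod (hB : BL K) {x : K} (hx : x ≠ 0) {s : Finset (Fin n)} {b : Fin n → K}
    (hb : ∀ j ∈ s, b j ≠ 0) : hs (∏ j ∈ s, b j) x = ∏ j ∈ s, hs (b j) x := by
  induction s using Finset.induction_on with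
  | empty =>
    rw [prod_empty, prod_empty]
    exact hs_isSquare one_ne_zero ⟨1, by ring⟩ x
  | insert a s ha ih =>
    have h1 : ∀ j ∈ s, b j ≠ 0 := fun j hj => hb j (mem_insert_of_mem hj)
    rw [prod_insert ha, prod_insert ha, hs_mul' hB hx (hb a (mem_insert_self _ _))
      (prod_ne_zero_iff.2 h1), ih h1]

theorem CF_prs (hB : BL K) (b : Fin n → K) (hb : ∀ j, b j ≠ 0) (s : Finset (Fin n)) :
    CF s b = sgz (prs' s b) := by
  induction s using Finset.induction_on_max with
  | empty =>
    rw [CF_empty]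
    rfl
  | insert a s ha ih =>
    have han : a ∉ s := fun h => lt_irrefl _ (ha a h)
    rw [CF_insert hB han fun j _ => hb j, ih, hs_comm, hs_prod hB (hb a) fun j _ => hb j]
    have h1 : prs' (insert a s) b = ∑ i ∈ s, hv (b i) (b a) + prs' s b := by
      unfold prs'
      rw [sum_insert han]
      have e1 : (insert a s).filter (fun j => a < j) = ∅ := by
        rw [Finset.filter_eq_empty_iff]
        intro j hj h
        rcases mem_insert.1 hj with h' | h'
        · rw [h'] at h
          exact lt_irrefl _ h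
        · exact lt_asymm h (ha j h')
      rw [e1, sum_empty, zero_add, ← sum_add_distrib]
      refine sum_congr rfl fun i hi => ?_
      rw [Finset.filter_insert, if_pos (ha i hi), sum_insert]
      exact fun h => han (mem_filter.1 h).1
    rw [h1, sgz_add, sgz_sum]
    congr 1
    exact prod_congr rfl fun i _ => hs_hv _ _

/-- the key identity of the isotropy theorem -/
theorem key2 [CharZero K] (hB : BL K) (hn : Odd n) {r : Fin n → K} (hr : Function.Injective r)
    {x : Fin n → K} (hx : ∀ i, x i ≠ 0) (hLx : LG r x) :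
    CF univ x * ∏ i, hs (x i) (dc r i) = 1 := by
  have h2 : (2 : K) ≠ 0 := two_ne_zero
  have hcard : (univ : Finset (Fin n)).card = 2 * ((n - 1) / 2) + 1 := by
    rw [card_univ, Fintype.card_fin]
    obtain ⟨k, hk⟩ := hn
    omega
  have hone : ∀ i : Fin n, (fun _ => (1 : K)) i ≠ 0 := fun _ => one_ne_zero
  have hc : ∀ i ∈ (univ : Finset (Fin n)), dc r i ≠ 0 := fun i _ => dc_ne hr i
  have hP : ∏ i, dc r i ≠ 0 := prod_ne_zero_iff.2 hc
  have key : ∀ x : Fin n → K, (∀ i, x i ≠ 0) → LG r x →
      CF univ (fun i => x i * dc r i) = Ck ((n - 1) / 2) (∏ i, dc r i) := by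
    intro x hx hLx
    obtain ⟨V, i1, i2, i3, L, h3, h4⟩ := exists_iso hn hr hx hLx
    have h5 := wit hB h2 _ univ _ V L hcard h3 h4
    obtain ⟨t, ht⟩ := hLx.prod_sq
    have ht0 : t ≠ 0 := by
      rintro rfl
      rw [mul_zero] at ht
      exact prod_ne_zero_iff.2 (fun i _ => hx i) ht
    rw [prod_mul_distrib, mul_comm (∏ i, x i)] at h5
    rw [ht, ← pow_two, Ck_sq hB _ ht0 hP] at h5
    convert h5
  have hsq : ∀ x : Fin n → K, (∀ i, x i ≠ 0) → LG r x → ∀ y, hs (∏ i, x i) y = 1 := fun x hx hLx y =>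
    hs_isSquare (prod_ne_zero_iff.2 fun i _ => hx i) hLx.prod_sq y
  have e1 := key x hx hLx
  have e2 := key (fun _ => 1) hone (LG.one r)
  simp only [one_mul] at e2
  rw [CF_mul hB (fun i _ => hx i) hc, hsq x hx hLx, mul_one, ← e2] at e1
  have e3 : CF univ (dc r) * CF univ (dc r) = 1 := by
    have e4 : ∀ (s : Finset (Fin n)), CF s (dc r) * CF s (dc r) = 1 := by
      intro s
      induction s using Finset.induction_on with
      | empty => rw [CF_empty]; rfl
      | insert i s hi ih =>
        rw [CF_insert hB hi (fun j _ => dc_ne hr j)]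
        have := hs_sq (dc r i) (∏ j ∈ s, dc r j)
        linear_combination (CF s (dc r) * CF s (dc r)) * this + ih
    exact e4 _
  have e5 : CF univ (fun i => dc r i) = CF univ (dc r) := rfl
  rw [e5] at e1
  linear_combination (CF univ (dc r)) * e1 - (CF univ x * ∏ i, hs (x i) (dc r i) - 1) * e3

/-- the additive form -/
theorem qv_zero [CharZero K] (hB : BL K) (hn : Odd n) {a d : Fin n → ℤ} {m : ℤ} (hm : m ≠ 0)
    (ha : Function.Injective a) (hd : ∀ i, d i ≠ 0) (h : LocJ K (tw m a) d) :
    qv (fun i => ((a i : ℤ) : K)) (fun i => ((d i : ℤ) : K)) = 0 := by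
  have hd' : ∀ i, ((d i : ℤ) : K) ≠ 0 := fun i => by exact_mod_cast hd i
  have hm' : (m : K) ≠ 0 := by exact_mod_cast hm
  have ha' : Function.Injective (fun i => ((a i : ℤ) : K)) := fun i j hij => ha (by
    have : ((a i : ℤ) : K) = ((a j : ℤ) : K) := hij
    exact_mod_cast this)
  have hta : Function.Injective (fun i => ((tw m a i : ℤ) : K)) := fun i j hij => tw_inj hm ha (by
    have : ((tw m a i : ℤ) : K) = ((tw m a j : ℤ) : K) := hij
    exact_mod_cast this)
  have h1 := key2 hB hn hta hd' (locJ_iff.1 h)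
  obtain ⟨k, hk⟩ := hn
  have h2 : ∀ i, dc (fun i => ((tw m a i : ℤ) : K)) i = ((m : K) ^ k) ^ 2 *
      dc (fun i => ((a i : ℤ) : K)) i := by
    intro i
    unfold dc
    have e1 : ∀ j ∈ univ.erase i, (((tw m a i : ℤ) : K) - ((tw m a j : ℤ) : K)) =
        (m : K) * (((a i : ℤ) : K) - ((a j : ℤ) : K)) := by
      intro j _
      unfold tw
      push_cast
      ring
    rw [prod_congr rfl e1, prod_mul_distrib, prod_const, card_erase_of_mem (mem_univ _), card_univ,
      Fintype.card_fin]
    congr 1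
    rw [← pow_mul]
    congr 1
    omega
  have h3 : ∀ i, hs ((d i : ℤ) : K) (dc (fun i => ((tw m a i : ℤ) : K)) i) =
      hs ((d i : ℤ) : K) (dc (fun i => ((a i : ℤ) : K)) i) := by
    intro i
    rw [h2, hs_mul hB (hd' i) (pow_ne_zero 2 (pow_ne_zero k hm')) (dc_ne ha' i),
      hs_sq_right (pow_ne_zero k hm'), one_mul]
  rw [prod_congr rfl fun i _ => h3 i, CF_prs hB _ hd' univ,
    prod_congr rfl fun i _ => hs_hv _ _, ← sgz_sum, ← sgz_add, sgz_one] at h1
  exact h1

end

theorem t_QLOC : S_QLOC := by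
  refine ⟨?_, ?_⟩
  · intro p hpf n a d m hn hm ha hd h
    have h1 := qv_zero (bl_padic p) hn hm ha hd h
    unfold qv at h1
    unfold qp hp
    simp only [dif_pos hpf.out]
    rw [← h1]
    congr 1
    refine sum_congr rfl fun i _ => ?_
    unfold dc
    push_cast
    rfl
  · intro n a d m hn hm ha hd h
    exact qv_zero bl_real hn hm ha hd h

end Pool.Agent.Q24.JQ
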